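import Pool.Agent.Helper46.CM.Welch

/-!
# Multiplicities of difference vectors and the counting lemma
-/

set_option autoImplicit false

namespace Pool.Agent.Helper46.CM

open Finset

/-- The number of pairs `(i, j)` with `(i - j, f i - f j) = (a, b)`. -/
def mult {n : ℕ} (f : Equiv.Perm (Fin n)) (a b : ℤ) : ℕ :=
  (Finset.univ.filter (fun q : Fin n × Fin n =>
    ((q.1 : ℕ) : ℤ) - ((q.2 : ℕ) : ℤ) = a ∧ ((f q.1 : ℕ) : ℤ) - ((f q.2 : ℕ) : ℤ) = b)).card

theorem count {N n : ℕ} {f : Equiv.Perm (Fin N)} (hf : ModCostas f) {R : Fin n → Fin N}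
    (hR : Function.Injective R) (K₁ K₂ : Finset ℤ) (S : Finset (Fin n × Fin n)) (a b : ℤ)
    (c₁ c₂ : Fin n × Fin n → ℤ) (h0 : ∀ q ∈ S, q.1 ≠ q.2)
    (h1 : ∀ q ∈ S, c₁ q ∈ K₁ ∧
      ((R q.1 : ℕ) : ℤ) - ((R q.2 : ℕ) : ℤ) ≡ a + c₁ q [ZMOD (N : ℤ)])
    (h2 : ∀ q ∈ S, c₂ q ∈ K₂ ∧
      ((f (R q.1) : ℕ) : ℤ) - ((f (R q.2) : ℕ) : ℤ) ≡ b + c₂ q [ZMOD ((N + 1 : ℕ) : ℤ)]) :
    S.card ≤ K₁.card * K₂.card := by
  rw [← Finset.card_product]
  apply Finset.card_le_card_of_injOn (fun q => (c₁ q, c₂ q))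
  · intro q hq
    rw [Finset.mem_coe] at hq
    rw [Finset.mem_coe, Finset.mem_product]
    exact ⟨(h1 q hq).1, (h2 q hq).1⟩
  · intro q hq q' hq' hqq
    rw [Finset.mem_coe] at hq hq'
    simp only [Prod.mk.injEq] at hqq
    have e1 := (h1 q hq).2
    have e1' := (h1 q' hq').2
    have e2 := (h2 q hq).2
    have e2' := (h2 q' hq').2
    rw [hqq.1] at e1
    rw [hqq.2] at e2
    have e3 := hf (R q.1) (R q.2) (R q'.1) (R q'.2) (fun h => h0 q hq (hR h))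
      (e1.trans e1'.symm) (e2.trans e2'.symm)
    exact Prod.ext (hR e3.1) (hR e3.2)

/-- Differences of two elements of `{0, h, ..., Qh, n}`. -/
noncomputable def dset (n h Q : ℕ) : Finset ℤ :=
  ((Finset.Icc (-(Q : ℤ)) Q).image (fun k => k * (h : ℤ)))
    ∪ (((Finset.Icc (0 : ℤ) Q).image (fun k => (n : ℤ) - k * h))
      ∪ ((Finset.Icc (0 : ℤ) Q).image (fun k => k * (h : ℤ) - n)))

theorem dset_card (n h Q : ℕ) : (dset n h Q).card ≤ 4 * Q + 3 := by
  unfold dset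
  refine (Finset.card_union_le _ _).trans ?_
  have h1 : ((Finset.Icc (-(Q : ℤ)) Q).image (fun k => k * (h : ℤ))).card ≤ 2 * Q + 1 := by
    refine Finset.card_image_le.trans ?_
    rw [Int.card_Icc]
    omega
  have h2 : (((Finset.Icc (0 : ℤ) Q).image (fun k => (n : ℤ) - k * h))
      ∪ ((Finset.Icc (0 : ℤ) Q).image (fun k => k * (h : ℤ) - n))).card ≤ 2 * (Q + 1) := by
    refine (Finset.card_union_le _ _).trans ?_
    have h3 : ((Finset.Icc (0 : ℤ) Q).image (fun k => (n : ℤ) - k * h)).card ≤ Q + 1 := by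
      refine Finset.card_image_le.trans ?_
      rw [Int.card_Icc]
      omega
    have h4 : ((Finset.Icc (0 : ℤ) Q).image (fun k => k * (h : ℤ) - n)).card ≤ Q + 1 := by
      refine Finset.card_image_le.trans ?_
      rw [Int.card_Icc]
      omega
    omega
  omega

theorem mem_dset {n h Q : ℕ} {s t : ℤ}
    (hs : s = n ∨ ∃ j : ℕ, j ≤ Q ∧ s = j * (h : ℤ)) (ht : t = n ∨ ∃ j : ℕ, j ≤ Q ∧ t = j * (h : ℤ)) :
    s - t ∈ dset n h Q := by
  unfold dset
  rw [Finset.mem_union, Finset.mem_union, Finset.mem_image, Finset.mem_image, Finset.mem_image]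
  rcases hs with rfl | ⟨j, hj, rfl⟩
  · rcases ht with rfl | ⟨k, hk, rfl⟩
    · left
      refine ⟨0, ?_, by ring⟩
      rw [Finset.mem_Icc]
      omega
    · right; left
      refine ⟨k, ?_, rfl⟩
      rw [Finset.mem_Icc]
      omega
  · rcases ht with rfl | ⟨k, hk, rfl⟩
    · right; right
      refine ⟨j, ?_, rfl⟩
      rw [Finset.mem_Icc]
      omega
    · left
      refine ⟨(j : ℤ) - k, ?_, by ring⟩
      rw [Finset.mem_Icc]
      omega

/-- The five classes `-2h, -h, 0, h, 2h`. -/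
noncomputable def five (h : ℕ) : Finset ℤ := (Finset.Icc (-2 : ℤ) 2).image (fun k => k * (h : ℤ))

theorem five_card (h : ℕ) : (five h).card ≤ 5 := by
  unfold five
  refine Finset.card_image_le.trans ?_
  rw [Int.card_Icc]
  norm_num

/-- Reduction of a displacement `0, h, n` modulo `n + h` to `0, h, -h`. -/
theorem red {n h : ℕ} {u x : ℕ} (hu : u = x ∨ u = x + h ∨ u = x + n) :
    ∃ t : ℤ, -1 ≤ t ∧ t ≤ 1 ∧ (u : ℤ) ≡ x + t * h [ZMOD ((n + h : ℕ) : ℤ)] := by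
  rcases hu with rfl | rfl | rfl
  · exact ⟨0, by norm_num, by norm_num, by simp [Int.ModEq.refl]⟩
  · refine ⟨1, by norm_num, le_rfl, ?_⟩
    push_cast
    rw [one_mul]
  · refine ⟨-1, le_rfl, by norm_num, ?_⟩
    rw [Int.modEq_iff_dvd]
    refine ⟨-1, ?_⟩
    push_cast
    ring

theorem five_diff {h : ℕ} {s t : ℤ} (hs : -1 ≤ s ∧ s ≤ 1) (ht : -1 ≤ t ∧ t ≤ 1) :
    (s - t) * h ∈ five h := by
  unfold five
  rw [Finset.mem_image]
  refine ⟨s - t, ?_, rfl⟩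
  rw [Finset.mem_Icc]
  omega

end Pool.Agent.Helper46.CM
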