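import Pool.Agent.Helper46.CM.Scheme

/-!
# The direct scheme
-/

set_option autoImplicit false

namespace Pool.Agent.Helper46.CM

open Finset

theorem sum_min_aux {h : ℕ} (hh : 0 < h) (u : ℕ) :
    ∑ x ∈ range u, (if h ∣ u - x then min (x + 1) h else 0) = u + 1 - h := by
  induction u using Nat.strong_induction_on with
  | _ u ih =>
    rcases lt_or_ge u h with h1 | h1
    · rw [Finset.sum_eq_zero]
      · omega
      · intro x hx
        rw [Finset.mem_range] at hx
        rw [if_neg]
        intro h2
        have := Nat.le_of_dvd (by omega) h2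
        omega
    · obtain ⟨v, rfl⟩ : ∃ v, u = v + h := ⟨u - h, by omega⟩
      rw [Finset.sum_range_add]
      have h2 : ∑ x ∈ range v, (if h ∣ v + h - x then min (x + 1) h else 0)
          = ∑ x ∈ range v, (if h ∣ v - x then min (x + 1) h else 0) := by
        apply Finset.sum_congr rfl
        intro x hx
        rw [Finset.mem_range] at hx
        have h3 : v + h - x = (v - x) + h := by omega
        rw [h3]
        simp only [Nat.dvd_add_self_right]
      have h4 : ∑ x ∈ range h, (if h ∣ v + h - (v + x) then min (v + x + 1) h else 0)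
          = min (v + 1) h := by
        rw [Finset.sum_eq_single 0]
        · rw [if_pos]
          simp
        · intro y hy hy0
          rw [Finset.mem_range] at hy
          rw [if_neg]
          intro h5
          have := Nat.le_of_dvd (by omega) h5
          omega
        · intro h5
          rw [Finset.mem_range] at h5
          omega
      rw [h2, h4, ih v (by omega)]
      omega

/-- The direct scheme. -/
noncomputable def dr (n h u x : ℕ) : ℝ :=
  (if u = x + 0 then 1 else 0)
    + (if n ≤ u ∧ h ∣ u - x then ((min (x + 1) h : ℕ) : ℝ) / n else 0)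
    + (if u = x + n then ((h : ℝ) - x - 1) / n else 0)

theorem dr_nonneg {n h u x : ℕ} (hx : x < n) (hu : u < n + h) : 0 ≤ dr n h u x := by
  have hn : (0 : ℝ) < n := by exact_mod_cast (by omega : 0 < n)
  unfold dr
  refine add_nonneg (add_nonneg ?_ ?_) ?_
  · split_ifs <;> norm_num
  · split_ifs
    · positivity
    · exact le_rfl
  · split_ifs with h1
    · apply div_nonneg _ hn.le
      have : (x : ℝ) + 1 ≤ h := by exact_mod_cast (by omega : x + 1 ≤ h)
      linarith
    · exact le_rfl

theorem dr_col {n h x : ℕ} (hh : 0 < h) (hx : x < n) :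
    ∑ u ∈ range (n + h), dr n h u x = ((n : ℝ) + h) / n := by
  have hn : (0 : ℝ) < n := by exact_mod_cast (by omega : 0 < n)
  have h2 : ∑ u ∈ range (n + h), (if n ≤ u ∧ h ∣ u - x then ((min (x + 1) h : ℕ) : ℝ) / n else 0)
      = ((min (x + 1) h : ℕ) : ℝ) / n := by
    have hk1 : h * ((n - x + h - 1) / h) ≤ n - x + h - 1 := Nat.mul_div_le _ _
    have hk2 : n - x + h - 1 < h * ((n - x + h - 1) / h) + h := by
      have := Nat.lt_mul_div_succ (n - x + h - 1) hh
      rw [Nat.mul_add, Nat.mul_one] at this
      exact this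
    rw [Finset.sum_eq_single (x + h * ((n - x + h - 1) / h))]
    · rw [if_pos]
      refine ⟨by omega, ?_⟩
      rw [Nat.add_sub_cancel_left]
      exact Dvd.intro _ rfl
    · intro u hu hne
      rw [Finset.mem_range] at hu
      rw [if_neg]
      rintro ⟨h3, c, hc⟩
      apply hne
      have h4 : u = x + h * c := by omega
      have h5 : c = (n - x + h - 1) / h := by
        have h6 : h * c < h * ((n - x + h - 1) / h + 1) := by
          rw [Nat.mul_add, Nat.mul_one]; omega
        have h7 : h * ((n - x + h - 1) / h) < h * (c + 1) := by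
          rw [Nat.mul_add, Nat.mul_one]; omega
        have h8 := Nat.lt_of_mul_lt_mul_left h6
        have h9 := Nat.lt_of_mul_lt_mul_left h7
        omega
      rw [h4, h5]
    · intro h3
      rw [Finset.mem_range] at h3
      omega
  unfold dr
  rw [Finset.sum_add_distrib, Finset.sum_add_distrib, sum_src, sum_src, h2,
    if_pos (show x + 0 < n + h by omega)]
  by_cases h1 : x < h
  · rw [if_pos (by omega), min_eq_left (by omega)]
    push_cast
    field_simp
    ring
  · rw [if_neg (by omega), min_eq_right (by omega)]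
    field_simp
    ring

theorem dr_row {n h u : ℕ} (hh0 : 0 < h) (hh : h ≤ n) (hu : u < n + h) :
    ∑ x ∈ range n, dr n h u x = 1 := by
  have hn : (0 : ℝ) < n := by exact_mod_cast (by omega : 0 < n)
  unfold dr
  rw [Finset.sum_add_distrib, Finset.sum_add_distrib,
    sum_tgt n u 0 (fun _ => 1), sum_tgt n u n (fun x => ((h : ℝ) - x - 1) / n)]
  rcases lt_or_ge u n with h1 | h1
  · rw [if_pos (by omega), if_neg (by omega : ¬ (n ≤ u ∧ u < n + n)), Finset.sum_eq_zero]
    · ring
    · intro x _
      rw [if_neg (by omega)]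
  · rw [if_neg (by omega : ¬ (0 ≤ u ∧ u < n + 0)), if_pos (by omega : n ≤ u ∧ u < n + n)]
    have h3 : ∑ x ∈ range n, (if n ≤ u ∧ h ∣ u - x then ((min (x + 1) h : ℕ) : ℝ) / n else 0)
        = ((u : ℝ) + 1 - h) / n := by
      have h4 := sum_min_aux hh0 u
      obtain ⟨w, rfl⟩ : ∃ w, u = n + w := ⟨u - n, by omega⟩
      rw [Finset.sum_range_add] at h4
      have h5 : ∑ x ∈ range w, (if h ∣ n + w - (n + x) then min (n + x + 1) h else 0) = 0 := by
        apply Finset.sum_eq_zero
        intro x hx
        rw [Finset.mem_range] at hx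
        rw [if_neg]
        intro h6
        have := Nat.le_of_dvd (by omega) h6
        omega
      rw [h5, add_zero] at h4
      have h6 : ∑ x ∈ range n, (if n ≤ n + w ∧ h ∣ n + w - x then ((min (x + 1) h : ℕ) : ℝ) / n
          else 0) = ((∑ x ∈ range n, (if h ∣ n + w - x then min (x + 1) h else 0) : ℕ) : ℝ) / n := by
        rw [Nat.cast_sum, Finset.sum_div]
        apply Finset.sum_congr rfl
        intro x _
        by_cases h7 : h ∣ n + w - x
        · rw [if_pos ⟨h1, h7⟩, if_pos h7]
        · rw [if_neg (fun h8 => h7 h8.2), if_neg h7]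
          simp
      rw [h6, h4, Nat.cast_sub (by omega)]
      push_cast
      ring
    rw [h3, Nat.cast_sub h1]
    field_simp
    ring

theorem dr_pos_low {n h u x : ℕ} (hu : u < n) (h1 : 0 < dr n h u x) : u = x := by
  by_contra h2
  unfold dr at h1
  rw [if_neg (by omega), if_neg (by omega), if_neg (by omega)] at h1
  simp at h1

theorem dr_pos {n h u x : ℕ} (hx : x < n) (hu : u < n + h) (h1 : 0 < dr n h u x) :
    u = x + n ∨ ∃ j, j * h ≤ n + h ∧ u = x + j * h := by
  by_contra h2
  push Not at h2
  obtain ⟨h3, h4⟩ := h2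
  unfold dr at h1
  have h5 : ¬ u = x + 0 := by
    intro h6
    apply h4 0 (by omega)
    omega
  have h7 : ¬ (n ≤ u ∧ h ∣ u - x) := by
    rintro ⟨h8, c, hc⟩
    apply h4 c
    · rw [Nat.mul_comm]; omega
    · rw [Nat.mul_comm]; omega
  rw [if_neg h5, if_neg h7, if_neg h3] at h1
  simp at h1

end Pool.Agent.Helper46.CM
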