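import Pool.Agent.Helper46.CM.Main2

/-! Collected statement. -/

set_option autoImplicit false

namespace Pool.Agent.Helper46.CM

theorem final :
    ∀ δ : ℝ, 0 < δ → δ ≤ 1 → ∃ n₀ : ℕ, ∀ n : ℕ,
      ∃ (f : Equiv.Perm (Fin n)) (S : Finset (Fin n)), CostasOn f S ∧
        (n₀ ≤ n → (1 - δ) * n ≤ S.card) ∧
        ∀ a b : ℤ, (a, b) ≠ (0, 0) →
          (mult f a b : ℝ) ≤ if δ = 1 then 26 else 300 / δ ^ 2 := by
  intro δ hδ hδ1
  have hempty : ∀ (n : ℕ) (f : Equiv.Perm (Fin n)), CostasOn f ∅ := by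
    intro n f i hi
    exact absurd hi (Finset.notMem_empty i)
  have h26 : (26 : ℝ) ≤ if δ = 1 then 26 else 300 / δ ^ 2 := by
    split_ifs
    · exact le_rfl
    · rw [le_div_iff₀ (by positivity)]
      nlinarith
  by_cases h1 : δ = 1
  · refine ⟨0, fun n => ?_⟩
    obtain ⟨f, hf⟩ := bounded n
    refine ⟨f, ∅, hempty n f, fun _ => ?_, fun a b hab => ?_⟩
    · rw [h1]
      simp
    · exact le_trans (by exact_mod_cast hf a b hab) h26
  · obtain ⟨n₀, h⟩ := almost δ hδ hδ1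
    refine ⟨n₀, fun n => ?_⟩
    rcases le_or_gt n₀ n with h2 | h2
    · obtain ⟨f, S, h3, h4, h5⟩ := h n h2
      refine ⟨f, S, h4, fun _ => h3, fun a b hab => ?_⟩
      rw [if_neg h1]
      exact h5 a b hab
    · obtain ⟨f, hf⟩ := bounded n
      refine ⟨f, ∅, hempty n f, fun h3 => absurd h3 (not_le.2 h2), fun a b hab => ?_⟩
      exact le_trans (by exact_mod_cast hf a b hab) h26

end Pool.Agent.Helper46.CM
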