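import Mathlib

/-!
# The two transport schemes

`ch n h u x`: the chain scheme, `dr n h u x`: the direct scheme; sources `u < n + h`,
targets `x < n`, all row sums are `1` and all column sums are `(n + h) / n`.
-/

set_option autoImplicit false

namespace Pool.Agent.Helper46.CM

open Finset

theorem sum_src (N x t : ℕ) (c : ℝ) :
    ∑ u ∈ range N, (if u = x + t then c else 0) = if x + t < N then c else 0 := by
  rw [Finset.sum_ite_eq']
  simp

theorem sum_tgt (n u t : ℕ) (g : ℕ → ℝ) :
    ∑ x ∈ range n, (if u = x + t then g x else 0) = if t ≤ u ∧ u < n + t then g (u - t) else 0 := by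
  split_ifs with h
  · rw [Finset.sum_eq_single (u - t)]
    · rw [if_pos (by omega)]
    · intro x _ hx
      rw [if_neg (by omega)]
    · intro hx
      rw [Finset.mem_range] at hx
      omega
  · apply Finset.sum_eq_zero
    intro x hx
    rw [Finset.mem_range] at hx
    rw [if_neg (by omega)]

/-- The chain scheme. -/
noncomputable def ch (n h u x : ℕ) : ℝ :=
  (if u = x + 0 then (if x < h then 1 else ((n : ℝ) + h - x - 1) / n) else 0)
    + (if u = x + h then ((x : ℝ) + 1) / n else 0)
    + (if u = x + n then ((h : ℝ) - x - 1) / n else 0)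

theorem ch_nonneg {n h u x : ℕ} (hx : x < n) (hu : u < n + h) : 0 ≤ ch n h u x := by
  have hn : (0 : ℝ) < n := by exact_mod_cast (by omega : 0 < n)
  have hx' : (x : ℝ) + 1 ≤ n := by exact_mod_cast hx
  unfold ch
  refine add_nonneg (add_nonneg ?_ ?_) ?_
  · split_ifs
    · norm_num
    · apply div_nonneg _ hn.le
      have : (0 : ℝ) ≤ h := by positivity
      linarith
    · exact le_rfl
  · split_ifs
    · positivity
    · exact le_rfl
  · split_ifs with h1
    · apply div_nonneg _ hn.le
      have : (x : ℝ) + 1 ≤ h := by exact_mod_cast (by omega : x + 1 ≤ h)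
      linarith
    · exact le_rfl

theorem ch_col {n h x : ℕ} (hx : x < n) :
    ∑ u ∈ range (n + h), ch n h u x = ((n : ℝ) + h) / n := by
  have hn : (0 : ℝ) < n := by exact_mod_cast (by omega : 0 < n)
  unfold ch
  rw [Finset.sum_add_distrib, Finset.sum_add_distrib, sum_src, sum_src, sum_src,
    if_pos (show x + 0 < n + h by omega), if_pos (show x + h < n + h by omega)]
  by_cases h1 : x < h
  · rw [if_pos h1, if_pos (by omega)]
    field_simp
    ring
  · rw [if_neg h1, if_neg (by omega)]
    field_simp
    ring

theorem ch_row {n h u : ℕ} (hh : h ≤ n) (hn0 : 0 < n) (hu : u < n + h) :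
    ∑ x ∈ range n, ch n h u x = 1 := by
  have hn : (0 : ℝ) < n := by exact_mod_cast hn0
  unfold ch
  rw [Finset.sum_add_distrib, Finset.sum_add_distrib,
    sum_tgt n u 0 (fun x => if x < h then 1 else ((n : ℝ) + h - x - 1) / n),
    sum_tgt n u h (fun x => ((x : ℝ) + 1) / n), sum_tgt n u n (fun x => ((h : ℝ) - x - 1) / n)]
  rcases lt_or_ge u h with h1 | h1
  · rw [if_pos (by omega), if_pos (by omega), if_neg (by omega), if_neg (by omega)]
    ring
  · rcases lt_or_ge u n with h2 | h2
    · rw [if_pos (by omega), if_neg (by omega), if_pos (by omega), if_neg (by omega)]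
      rw [Nat.cast_sub h1]
      simp only [Nat.sub_zero]
      field_simp
      ring
    · rw [if_neg (by omega), if_pos (by omega), if_pos (by omega)]
      rw [Nat.cast_sub h1, Nat.cast_sub h2]
      field_simp
      ring

theorem ch_pos {n h u x : ℕ} (h1 : 0 < ch n h u x) : u = x ∨ u = x + h ∨ u = x + n := by
  by_contra h2
  push Not at h2
  obtain ⟨h3, h4, h5⟩ := h2
  unfold ch at h1
  rw [if_neg (by omega), if_neg h4, if_neg h5] at h1
  simp at h1

/-- The last source sends everything to the last target. -/
theorem ch_last {n h x : ℕ} (hh : 0 < h) (hx : x < n) :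
    ch n h (n + h - 1) x = if x = n - 1 then 1 else 0 := by
  have hn : (0 : ℝ) < n := by exact_mod_cast (by omega : 0 < n)
  unfold ch
  rw [if_neg (by omega : ¬ n + h - 1 = x + 0)]
  by_cases h1 : x = n - 1
  · rw [if_pos h1, if_pos (by omega)]
    have hx2 : (x : ℝ) = n - 1 := by
      rw [h1, Nat.cast_sub (by omega)]; norm_num
    by_cases h2 : n + h - 1 = x + n
    · rw [if_pos h2]
      have h3 : (h : ℝ) = x + 1 := by exact_mod_cast (by omega : h = x + 1)
      rw [h3, hx2]
      field_simp
      ring
    · rw [if_neg h2, hx2]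
      field_simp
      ring
  · rw [if_neg h1, if_neg (by omega)]
    by_cases h2 : n + h - 1 = x + n
    · rw [if_pos h2]
      have h3 : (h : ℝ) = x + 1 := by exact_mod_cast (by omega : h = x + 1)
      rw [h3]
      simp
    · rw [if_neg h2]
      simp

end Pool.Agent.Helper46.CM
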