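import Pool.Agent.Helper46.CM.Transport
import Pool.Agent.Helper46.CM.Scheme
import Pool.Agent.Helper46.CM.Count

/-!
# Permutations in which every difference vector has multiplicity at most 26
-/

set_option autoImplicit false

namespace Pool.Agent.Helper46.CM

open Finset

theorem fin_sum_range {n : ℕ} (g : ℕ → ℝ) : ∑ x : Fin n, g (x : ℕ) = ∑ x ∈ range n, g x :=
  Fin.sum_univ_eq_sum_range g n

/-- The case `n + h + 1` prime, `h < n`: positions of the sources. -/
theorem sources {n h : ℕ} (hh : h < n) (hp : Nat.Prime (n + h + 1)) :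
    ∃ (f : Equiv.Perm (Fin (n + h))) (R : Fin n → Fin (n + h)) (F : Equiv.Perm (Fin n)),
      ModCostas f ∧ Function.Injective R ∧
      (∀ x, (R x : ℕ) = x ∨ (R x : ℕ) = x + h ∨ (R x : ℕ) = x + n) ∧
      (∀ x, (F x : ℕ) ≠ n - 1 → ((f (R x) : ℕ) = F x ∨ (f (R x) : ℕ) = F x + (h + 1) ∨
        (f (R x) : ℕ) = F x + n)) := by
  obtain ⟨f, hf⟩ := welch_exists hp
  have hn : 0 < n := by omega
  have hn' : (0 : ℝ) < n := by exact_mod_cast hn
  have hN' : (0 : ℝ) < (n : ℝ) + h := by positivity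
  let a : Fin (n + h) → Fin n → ℝ := fun u x => ch n h u x
  let b : Fin (n + h) → Fin n → ℝ := fun v y =>
    ((n : ℝ) + h) / (n + h + 1) * ch n (h + 1) v y
      + (if (y : ℕ) = n - 1 then 1 / ((n : ℝ) + h + 1) else 0)
  have hlast : ∀ c : ℝ, ∑ y : Fin n, (if (y : ℕ) = n - 1 then c else 0) = c := by
    intro c
    rw [fin_sum_range (fun y => if y = n - 1 then c else 0), Finset.sum_ite_eq']
    rw [if_pos]
    rw [Finset.mem_range]
    omega
  obtain ⟨R, F, hR, hRF⟩ := transport (N := n + h) hn (by omega) f a b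
    (fun u x => ch_nonneg x.2 u.2)
    (fun u x => by
      have h1 := ch_nonneg (n := n) (h := h + 1) (u := u) (x := x) x.2 (by omega)
      refine add_nonneg (mul_nonneg (by positivity) h1) ?_
      split_ifs
      · positivity
      · exact le_rfl)
    (fun u => by
      change ∑ x : Fin n, ch n h u (x : ℕ) = 1
      rw [fin_sum_range (fun x => ch n h u x)]
      exact ch_row (by omega) hn u.2)
    (fun u => by
      change ∑ x : Fin n, (((n : ℝ) + h) / (n + h + 1) * ch n (h + 1) u (x : ℕ)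
        + (if (x : ℕ) = n - 1 then 1 / ((n : ℝ) + h + 1) else 0)) = 1
      rw [Finset.sum_add_distrib, ← Finset.mul_sum, fin_sum_range (fun x => ch n (h + 1) u x),
        ch_row (by omega) hn (by omega), hlast]
      field_simp)
    (fun x => by
      change ∑ u : Fin (n + h), ch n h (u : ℕ) (x : ℕ) = _
      rw [fin_sum_range (fun u => ch n h u x), ch_col x.2]
      push_cast
      rfl)
    (fun y => by
      change ∑ u : Fin (n + h), (((n : ℝ) + h) / (n + h + 1) * ch n (h + 1) (u : ℕ) (y : ℕ)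
        + (if (y : ℕ) = n - 1 then 1 / ((n : ℝ) + h + 1) else 0)) = _
      rw [Finset.sum_add_distrib, ← Finset.mul_sum, fin_sum_range (fun u => ch n (h + 1) u y)]
      have h1 := ch_col (n := n) (h := h + 1) y.2
      rw [show n + (h + 1) = (n + h) + 1 by ring, Finset.sum_range_succ] at h1
      have h2 := ch_last (n := n) (h := h + 1) (x := y) (by omega) y.2
      rw [show n + (h + 1) - 1 = n + h by omega] at h2
      rw [h2] at h1
      have h3 : ∑ u ∈ range (n + h), ch n (h + 1) u y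
          = ((n : ℝ) + ((h + 1 : ℕ) : ℝ)) / n - (if (y : ℕ) = n - 1 then 1 else 0) := by
        linarith
      rw [h3, Finset.sum_const, Finset.card_univ, Fintype.card_fin]
      push_cast
      split_ifs
      · simp only [nsmul_eq_mul]
        push_cast
        field_simp
        ring
      · simp only [nsmul_eq_mul]
        push_cast
        field_simp
        ring)
  refine ⟨f, R, F, hf, hR, ?_, ?_⟩
  · intro x
    exact ch_pos (hRF x).1
  · intro x hx
    have h1 := (hRF x).2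
    change 0 < ((n : ℝ) + h) / (n + h + 1) * ch n (h + 1) (f (R x) : ℕ) (F x : ℕ)
        + (if (F x : ℕ) = n - 1 then 1 / ((n : ℝ) + h + 1) else 0) at h1
    rw [if_neg hx, add_zero] at h1
    have h2 := (mul_pos_iff_of_pos_left (by positivity)).1 h1
    exact ch_pos h2

theorem mult_le {n h : ℕ} (hh : h < n) (hp : Nat.Prime (n + h + 1)) :
    ∃ F : Equiv.Perm (Fin n), ∀ a b : ℤ, (a, b) ≠ (0, 0) → mult F a b ≤ 26 := by
  classical
  obtain ⟨f, R, F, hf, hR, h1, h2⟩ := sources hh hp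
  refine ⟨F, ?_⟩
  intro a b hab
  have hne : ∀ q ∈ (Finset.univ.filter (fun q : Fin n × Fin n =>
      ((q.1 : ℕ) : ℤ) - ((q.2 : ℕ) : ℤ) = a ∧ ((F q.1 : ℕ) : ℤ) - ((F q.2 : ℕ) : ℤ) = b)),
      q.1 ≠ q.2 ∧ b ≠ 0 := by
    intro q hq
    rw [Finset.mem_filter] at hq
    obtain ⟨_, e1, e2⟩ := hq
    have h3 : q.1 ≠ q.2 := by
      intro h3
      rw [h3, sub_self] at e1 e2
      exact hab (by rw [← e1, ← e2])
    refine ⟨h3, ?_⟩
    rintro rfl
    apply h3
    apply F.injective
    apply Fin.ext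
    omega
  unfold mult
  set S := (Finset.univ.filter (fun q : Fin n × Fin n =>
      ((q.1 : ℕ) : ℤ) - ((q.2 : ℕ) : ℤ) = a ∧ ((F q.1 : ℕ) : ℤ) - ((F q.2 : ℕ) : ℤ) = b)) with hS
  have hSm : ∀ q ∈ S, ((q.1 : ℕ) : ℤ) - ((q.2 : ℕ) : ℤ) = a ∧
      ((F q.1 : ℕ) : ℤ) - ((F q.2 : ℕ) : ℤ) = b := by
    intro q hq
    rw [hS, Finset.mem_filter] at hq
    exact hq.2
  have hsplit := Finset.card_filter_add_card_filter_not (s := S)
    (fun q => (F q.1 : ℕ) ≠ n - 1 ∧ (F q.2 : ℕ) ≠ n - 1)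
  have hA : (S.filter (fun q => (F q.1 : ℕ) ≠ n - 1 ∧ (F q.2 : ℕ) ≠ n - 1)).card ≤ 5 * 5 := by
    have ht : ∀ x : Fin n, ∃ t : ℤ, -1 ≤ t ∧ t ≤ 1 ∧
        (((R x : ℕ) : ℤ)) ≡ (x : ℕ) + t * h [ZMOD ((n + h : ℕ) : ℤ)] := fun x => red (h1 x)
    choose t ht1 ht2 ht3 using ht
    have hs : ∀ x : Fin n, ∃ s : ℤ, (F x : ℕ) ≠ n - 1 → (-1 ≤ s ∧ s ≤ 1 ∧
        (((f (R x) : ℕ) : ℤ)) ≡ (F x : ℕ) + s * ((h + 1 : ℕ) : ℤ) [ZMOD ((n + (h + 1) : ℕ) : ℤ)]) := by
      intro x
      by_cases hx : (F x : ℕ) ≠ n - 1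
      · obtain ⟨s, hs1, hs2, hs3⟩ := red (h2 x hx)
        exact ⟨s, fun _ => ⟨hs1, hs2, hs3⟩⟩
      · exact ⟨0, fun h => absurd h hx⟩
    choose s hs using hs
    refine (count hf hR (five h) (five (h + 1)) _ a b
      (fun q => (t q.1 - t q.2) * h) (fun q => (s q.1 - s q.2) * ((h + 1 : ℕ) : ℤ)) ?_ ?_ ?_).trans
      (Nat.mul_le_mul (five_card h) (five_card (h + 1)))
    · intro q hq
      rw [Finset.mem_filter] at hq
      exact (hne q hq.1).1
    · intro q hq
      rw [Finset.mem_filter] at hq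
      refine ⟨five_diff ⟨ht1 _, ht2 _⟩ ⟨ht1 _, ht2 _⟩, ?_⟩
      have e := (ht3 q.1).sub (ht3 q.2)
      refine e.trans ?_
      rw [← (hSm q hq.1).1]
      unfold Int.ModEq
      congr 1
      ring
    · intro q hq
      rw [Finset.mem_filter] at hq
      have s1 := hs q.1 hq.2.1
      have s2 := hs q.2 hq.2.2
      refine ⟨five_diff ⟨s1.1, s1.2.1⟩ ⟨s2.1, s2.2.1⟩, ?_⟩
      have e := s1.2.2.sub s2.2.2
      have e' : ((n + (h + 1) : ℕ) : ℤ) = ((n + h + 1 : ℕ) : ℤ) := by push_cast; ring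
      rw [e'] at e
      refine e.trans ?_
      rw [← (hSm q hq.1).2]
      unfold Int.ModEq
      congr 1
      ring
  have hB : (S.filter (fun q => ¬ ((F q.1 : ℕ) ≠ n - 1 ∧ (F q.2 : ℕ) ≠ n - 1))).card ≤ 1 := by
    rw [Finset.card_le_one]
    intro q hq q' hq'
    rw [Finset.mem_filter] at hq hq'
    have e1 := hSm q hq.1
    have e2 := hSm q' hq'.1
    have e3 := (hne q hq.1).2
    have l1 := (F q.1).2
    have l2 := (F q.2).2
    have l3 := (F q'.1).2
    have l4 := (F q'.2).2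
    have key : (F q.1 = F q'.1) ∨ (F q.2 = F q'.2) := by
      rw [Fin.ext_iff, Fin.ext_iff]
      have h5 := hq.2
      have h6 := hq'.2
      omega
    rcases key with h5 | h5
    · have h6 := F.injective h5
      refine Prod.ext h6 (Fin.ext ?_)
      have h7 := e1.1
      have h8 := e2.1
      rw [h6] at h7
      omega
    · have h6 := F.injective h5
      refine Prod.ext (Fin.ext ?_) h6
      have h7 := e1.1
      have h8 := e2.1
      rw [h6] at h7
      omega
  omega

/-- For every `n` there is a permutation in which every nonzero difference vector occurs at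
most 26 times. -/
theorem bounded (n : ℕ) :
    ∃ F : Equiv.Perm (Fin n), ∀ a b : ℤ, (a, b) ≠ (0, 0) → mult F a b ≤ 26 := by
  rcases Nat.eq_zero_or_pos n with rfl | hn
  · refine ⟨Equiv.refl _, ?_⟩
    intro a b _
    unfold mult
    rw [Finset.card_eq_zero.2]
    · norm_num
    · rw [Finset.filter_eq_empty_iff]
      intro q
      exact q.1.elim0
  · obtain ⟨p, hp, hlt, hle⟩ := Nat.exists_prime_lt_and_le_two_mul n hn.ne'
    have h1 : p = n + (p - n - 1) + 1 := by omega
    rw [h1] at hp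
    exact mult_le (by omega) hp

end Pool.Agent.Helper46.CM
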