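import Pool.Agent.Helper46.CM.Main1
import Pool.Agent.Helper46.CM.Direct
import Pool.Agent.Helper74.SD.PrimeGap

/-!
# Permutations of bounded multiplicity which are Costas on almost all indices
-/

set_option autoImplicit false

namespace Pool.Agent.Helper46.CM

open Finset

/-- The permutation `f` is Costas on the index set `S`. -/
def CostasOn {n : ℕ} (f : Equiv.Perm (Fin n)) (S : Finset (Fin n)) : Prop :=
  ∀ i ∈ S, ∀ j ∈ S, ∀ k ∈ S, ∀ l ∈ S, i ≠ j →
    ((i : ℕ) : ℤ) - ((j : ℕ) : ℤ) = ((k : ℕ) : ℤ) - ((l : ℕ) : ℤ) →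
    ((f i : ℕ) : ℤ) - ((f j : ℕ) : ℤ) = ((f k : ℕ) : ℤ) - ((f l : ℕ) : ℤ) → i = k ∧ j = l

theorem direct {n h Q : ℕ} (hh0 : 0 < h) (hh : h ≤ n) (hQ : n + h < (Q + 1) * h)
    (hp : Nat.Prime (n + h + 1)) :
    ∃ (F : Equiv.Perm (Fin n)) (S : Finset (Fin n)), n ≤ S.card + 2 * h ∧ CostasOn F S ∧
      ∀ a b : ℤ, (a, b) ≠ (0, 0) → mult F a b ≤ (4 * Q + 3) * (4 * Q + 3) := by
  classical
  obtain ⟨f, hf⟩ := welch_exists hp
  have hn : 0 < n := by omega
  have hrow : ∀ u : Fin (n + h), ∑ x : Fin n, dr n h u (x : ℕ) = 1 := by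
    intro u
    rw [fin_sum_range (fun x => dr n h u x)]
    exact dr_row hh0 hh u.2
  have hcol : ∀ x : Fin n, ∑ u : Fin (n + h), dr n h (u : ℕ) (x : ℕ) = ((n + h : ℕ) : ℝ) / n := by
    intro x
    rw [fin_sum_range (fun u => dr n h u x), dr_col hh0 x.2]
    push_cast
    rfl
  obtain ⟨R, F, hR, hRF⟩ := transport (N := n + h) hn (by omega) f
    (fun u x => dr n h u x) (fun u x => dr n h u x)
    (fun u x => dr_nonneg x.2 u.2) (fun u x => dr_nonneg x.2 u.2) hrow hrow hcol hcol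
  have h1 : ∀ x, 0 < dr n h (R x : ℕ) (x : ℕ) := fun x => (hRF x).1
  have h2 : ∀ x, 0 < dr n h (f (R x) : ℕ) (F x : ℕ) := fun x => (hRF x).2
  refine ⟨F, Finset.univ.filter (fun x => (R x : ℕ) < n ∧ (f (R x) : ℕ) < n), ?_, ?_, ?_⟩
  · -- the number of displaced points
    have hA : (Finset.univ.filter (fun x : Fin n => ¬ (R x : ℕ) < n)).card ≤ h := by
      have := Finset.card_le_card_of_injOn (s := Finset.univ.filter
        (fun x : Fin n => ¬ (R x : ℕ) < n)) (t := Finset.Ico n (n + h)) (fun x => (R x : ℕ))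
        (by
          intro x hx
          rw [Finset.mem_coe, Finset.mem_filter] at hx
          rw [Finset.mem_coe, Finset.mem_Ico]
          exact ⟨not_lt.1 hx.2, (R x).2⟩)
        (by
          intro x _ y _ hxy
          exact hR (Fin.ext hxy))
      rw [Nat.card_Ico] at this
      omega
    have hB : (Finset.univ.filter (fun x : Fin n => ¬ (f (R x) : ℕ) < n)).card ≤ h := by
      have := Finset.card_le_card_of_injOn (s := Finset.univ.filter
        (fun x : Fin n => ¬ (f (R x) : ℕ) < n)) (t := Finset.Ico n (n + h))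
        (fun x => (f (R x) : ℕ))
        (by
          intro x hx
          rw [Finset.mem_coe, Finset.mem_filter] at hx
          rw [Finset.mem_coe, Finset.mem_Ico]
          exact ⟨not_lt.1 hx.2, (f (R x)).2⟩)
        (by
          intro x _ y _ hxy
          exact hR (f.injective (Fin.ext hxy)))
      rw [Nat.card_Ico] at this
      omega
    have hC := Finset.card_filter_add_card_filter_not (s := (Finset.univ : Finset (Fin n)))
      (fun x : Fin n => (R x : ℕ) < n ∧ (f (R x) : ℕ) < n)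
    rw [Finset.card_univ, Fintype.card_fin] at hC
    have hD : (Finset.univ.filter (fun x : Fin n => ¬ ((R x : ℕ) < n ∧ (f (R x) : ℕ) < n))).card
        ≤ h + h := by
      refine (Finset.card_le_card (t := Finset.univ.filter (fun x : Fin n => ¬ (R x : ℕ) < n)
        ∪ Finset.univ.filter (fun x : Fin n => ¬ (f (R x) : ℕ) < n)) ?_).trans
        ((Finset.card_union_le _ _).trans (by omega))
      intro x hx
      rw [Finset.mem_filter] at hx
      rw [Finset.mem_union, Finset.mem_filter, Finset.mem_filter]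
      by_cases h3 : (R x : ℕ) < n
      · right
        exact ⟨hx.1, fun h4 => hx.2 ⟨h3, h4⟩⟩
      · left
        exact ⟨hx.1, h3⟩
    omega
  · -- Costas on the undisplaced points
    have hu : ∀ x ∈ Finset.univ.filter (fun x : Fin n => (R x : ℕ) < n ∧ (f (R x) : ℕ) < n),
        (R x : ℕ) = x ∧ (f (R x) : ℕ) = F x := by
      intro x hx
      rw [Finset.mem_filter] at hx
      exact ⟨dr_pos_low hx.2.1 (h1 x), dr_pos_low hx.2.2 (h2 x)⟩
    intro i hi j hj k hk l hl hij e1 e2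
    have e3 := hf (R i) (R j) (R k) (R l) (fun h3 => hij (hR h3))
      (by rw [(hu i hi).1, (hu j hj).1, (hu k hk).1, (hu l hl).1, e1])
      (by rw [(hu i hi).2, (hu j hj).2, (hu k hk).2, (hu l hl).2, e2])
    exact ⟨hR e3.1, hR e3.2⟩
  · intro a b hab
    have hd : ∀ u x : ℕ, x < n → u < n + h → 0 < dr n h u x →
        ((u : ℤ) - x = n ∨ ∃ j : ℕ, j ≤ Q ∧ (u : ℤ) - x = j * (h : ℤ)) := by
      intro u x hx hu h3
      rcases dr_pos hx hu h3 with h4 | ⟨j, hj, h4⟩
      · left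
        omega
      · right
        refine ⟨j, ?_, ?_⟩
        · have h5 : j * h < (Q + 1) * h := lt_of_le_of_lt hj hQ
          have := Nat.lt_of_mul_lt_mul_right h5
          omega
        · rw [h4]
          push_cast
          ring
    have hd1 : ∀ x : Fin n, ((((R x : ℕ) : ℤ)) - (x : ℕ) = n ∨
        ∃ j : ℕ, j ≤ Q ∧ (((R x : ℕ) : ℤ)) - (x : ℕ) = j * (h : ℤ)) :=
      fun x => hd _ _ x.2 (R x).2 (h1 x)
    have hd2 : ∀ x : Fin n, ((((f (R x) : ℕ) : ℤ)) - (F x : ℕ) = n ∨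
        ∃ j : ℕ, j ≤ Q ∧ (((f (R x) : ℕ) : ℤ)) - (F x : ℕ) = j * (h : ℤ)) :=
      fun x => hd _ _ (F x).2 (f (R x)).2 (h2 x)
    unfold mult
    refine (count hf hR (dset n h Q) (dset n h Q) _ a b
      (fun q => ((((R q.1 : ℕ) : ℤ)) - (q.1 : ℕ)) - ((((R q.2 : ℕ) : ℤ)) - (q.2 : ℕ)))
      (fun q => ((((f (R q.1) : ℕ) : ℤ)) - (F q.1 : ℕ)) - ((((f (R q.2) : ℕ) : ℤ)) - (F q.2 : ℕ)))
      ?_ ?_ ?_).trans (Nat.mul_le_mul (dset_card n h Q) (dset_card n h Q))
    · intro q hq h3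
      rw [Finset.mem_filter] at hq
      obtain ⟨_, e1, e2⟩ := hq
      rw [h3, sub_self] at e1 e2
      exact hab (by rw [← e1, ← e2])
    · intro q hq
      rw [Finset.mem_filter] at hq
      refine ⟨mem_dset (hd1 q.1) (hd1 q.2), ?_⟩
      rw [← hq.2.1]
      unfold Int.ModEq
      congr 1
      ring
    · intro q hq
      rw [Finset.mem_filter] at hq
      refine ⟨mem_dset (hd2 q.1) (hd2 q.2), ?_⟩
      rw [← hq.2.2]
      unfold Int.ModEq
      congr 1
      ring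

/-- For every `δ` in `(0, 1]` and all large `n`: multiplicities at most `300 / δ²`, and Costas on
a set of at least `(1 - δ) n` indices. -/
theorem almost (δ : ℝ) (hδ : 0 < δ) (hδ1 : δ ≤ 1) :
    ∃ n₀ : ℕ, ∀ n : ℕ, n₀ ≤ n → ∃ (F : Equiv.Perm (Fin n)) (S : Finset (Fin n)),
      (1 - δ) * n ≤ S.card ∧ CostasOn F S ∧
      ∀ a b : ℤ, (a, b) ≠ (0, 0) → (mult F a b : ℝ) ≤ 300 / δ ^ 2 := by
  obtain ⟨K, hK⟩ := Pool.Agent.Helper74.SD.exists_prime_near (δ / 20) (by positivity)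
  obtain ⟨M, hM⟩ := exists_nat_gt (100 / δ)
  refine ⟨max K M, ?_⟩
  intro n hn
  have hnK : K ≤ n := le_trans (le_max_left _ _) hn
  have hnM : (100 / δ) < n := lt_of_lt_of_le hM (by exact_mod_cast le_trans (le_max_right _ _) hn)
  have hnδ : 100 < n * δ := by rwa [div_lt_iff₀ hδ] at hnM
  have hn0 : (0 : ℝ) < n := by
    have : (0 : ℝ) < 100 / δ := by positivity
    linarith
  have hk1 : (⌊(1 + δ / 2) * n⌋₊ : ℝ) ≤ (1 + δ / 2) * n := Nat.floor_le (by positivity)
  have hk2 : (1 + δ / 2) * (n : ℝ) < ⌊(1 + δ / 2) * n⌋₊ + 1 := Nat.lt_floor_add_one _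
  have hkn : n ≤ ⌊(1 + δ / 2) * (n : ℝ)⌋₊ := by
    apply Nat.le_floor
    nlinarith
  obtain ⟨p, hp, hpk, hpl⟩ := hK ⌊(1 + δ / 2) * (n : ℝ)⌋₊ (le_trans hnK hkn)
  have hpk' : (p : ℝ) ≤ (1 + δ / 2) * n := le_trans (by exact_mod_cast hpk) hk1
  have hpl' : (1 + 2 * δ / 5) * (n : ℝ) + 1 ≤ p := by
    refine le_trans ?_ hpl
    have h3 : (1 - δ / 20) * ((1 + δ / 2) * (n : ℝ) - 1) ≤
        (1 - δ / 20) * (⌊(1 + δ / 2) * (n : ℝ)⌋₊ : ℝ) := by
      apply mul_le_mul_of_nonneg_left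
      · linarith
      · linarith
    refine le_trans ?_ h3
    have h4 : 0 ≤ (n * δ) * (1 - δ) := mul_nonneg (by linarith) (by linarith)
    nlinarith
  have hnp : n + 1 < p := by
    have : ((n : ℝ) + 1) < p := by nlinarith
    exact_mod_cast this
  obtain ⟨h, rfl⟩ : ∃ h, p = n + h + 1 := ⟨p - n - 1, by omega⟩
  push_cast at hpk' hpl'
  have hh0 : 0 < h := by omega
  have hhl : 2 * δ / 5 * (n : ℝ) ≤ h := by nlinarith
  have hhu : (h : ℝ) ≤ δ / 2 * n := by nlinarith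
  have hhn : h ≤ n := by
    have : (h : ℝ) ≤ n := by nlinarith
    exact_mod_cast this
  have hh0' : (0 : ℝ) < h := by exact_mod_cast hh0
  obtain ⟨F, S, hS, hC, hm⟩ := direct (Q := (n + h) / h) hh0 hhn (by
    have := Nat.lt_mul_div_succ (n + h) hh0
    rw [Nat.mul_comm] at this
    exact this) hp
  refine ⟨F, S, ?_, hC, ?_⟩
  · have h5 : (n : ℝ) ≤ S.card + 2 * h := by exact_mod_cast hS
    nlinarith
  · intro a b hab
    have h6 : (mult F a b : ℝ) ≤ (4 * (((n + h) / h : ℕ) : ℝ) + 3) * (4 * (((n + h) / h : ℕ) : ℝ) + 3) := by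
      exact_mod_cast hm a b hab
    have h7 : (((n + h) / h : ℕ) : ℝ) ≤ 1 + 5 / (2 * δ) := by
      have h8 : (((n + h) / h : ℕ) : ℝ) ≤ ((n + h : ℕ) : ℝ) / h := Nat.cast_div_le
      refine h8.trans ?_
      push_cast
      rw [div_le_iff₀ hh0']
      have h9 : (n : ℝ) ≤ 5 / (2 * δ) * h := by
        rw [div_mul_eq_mul_div, le_div_iff₀ (by positivity)]
        nlinarith
      linarith
    have h10 : 4 * (((n + h) / h : ℕ) : ℝ) + 3 ≤ 17 / δ := by
      rw [le_div_iff₀ hδ]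
      have h11 : (((n + h) / h : ℕ) : ℝ) * δ ≤ (1 + 5 / (2 * δ)) * δ :=
        mul_le_mul_of_nonneg_right h7 hδ.le
      have h12 : (1 + 5 / (2 * δ)) * δ = δ + 5 / 2 := by field_simp
      rw [h12] at h11
      nlinarith
    have h13 : (0 : ℝ) ≤ 4 * (((n + h) / h : ℕ) : ℝ) + 3 := by positivity
    have h14 := mul_le_mul h10 h10 h13 (by positivity)
    refine (h6.trans h14).trans ?_
    rw [div_mul_div_comm, ← sq, ← sq]
    apply div_le_div_of_nonneg_right _ (by positivity)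
    norm_num

end Pool.Agent.Helper46.CM
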