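import Mathlib

/-!
# Transport lemma

Two fractional transport plans (for rows and for columns) on a bijection of `Fin N` with uniform
usage `n / N` of the sources can be realized simultaneously by `n` different sources.
-/

set_option autoImplicit false

namespace Pool.Agent.Helper46.CM

open Finset

theorem transport {N n : ℕ} (hn : 0 < n) (hnN : n ≤ N) (f : Equiv.Perm (Fin N))
    (a b : Fin N → Fin n → ℝ) (ha : ∀ u x, 0 ≤ a u x) (hb : ∀ u x, 0 ≤ b u x)
    (ha1 : ∀ u, ∑ x, a u x = 1) (hb1 : ∀ u, ∑ x, b u x = 1)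
    (ha2 : ∀ x, ∑ u, a u x = (N : ℝ) / n) (hb2 : ∀ x, ∑ u, b u x = (N : ℝ) / n) :
    ∃ (R : Fin n → Fin N) (F : Equiv.Perm (Fin n)), Function.Injective R ∧
      ∀ x, 0 < a (R x) x ∧ 0 < b (f (R x)) (F x) := by
  classical
  have hn' : (0 : ℝ) < n := by exact_mod_cast hn
  have hN' : (0 : ℝ) < N := by exact_mod_cast lt_of_lt_of_le hn hnN
  have hle : (n : ℝ) / N ≤ 1 := by
    rw [div_le_one hN']; exact_mod_cast hnN
  have hq : 0 ≤ (n : ℝ) / N := by positivity
  have hq' : 0 < (n : ℝ) / N := by positivity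
  let M : Matrix (Fin n ⊕ Fin N) (Fin n ⊕ Fin N) ℝ :=
    Matrix.fromBlocks 0 (fun x u => (n : ℝ) / N * a u x) (fun u y => (n : ℝ) / N * b (f u) y)
      (fun u u' => if u = u' then 1 - (n : ℝ) / N else 0)
  have hM : M ∈ doublyStochastic ℝ (Fin n ⊕ Fin N) := by
    rw [mem_doublyStochastic_iff_sum]
    refine ⟨?_, ?_, ?_⟩
    · rintro (x | u) (y | u')
      · simp [M]
      · simp only [M, Matrix.fromBlocks_apply₁₂]
        exact mul_nonneg hq (ha _ _)
      · simp only [M, Matrix.fromBlocks_apply₂₁]
        exact mul_nonneg hq (hb _ _)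
      · simp only [M, Matrix.fromBlocks_apply₂₂]
        split_ifs
        · linarith
        · exact le_rfl
    · rintro (x | u)
      · rw [Fintype.sum_sum_type]
        simp only [M, Matrix.fromBlocks_apply₁₁, Matrix.fromBlocks_apply₁₂, Matrix.zero_apply,
          Finset.sum_const_zero, zero_add]
        rw [← Finset.mul_sum, ha2 x]
        field_simp
      · rw [Fintype.sum_sum_type]
        simp only [M, Matrix.fromBlocks_apply₂₁, Matrix.fromBlocks_apply₂₂]
        rw [← Finset.mul_sum, hb1, Finset.sum_ite_eq]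
        simp
    · rintro (y | u)
      · rw [Fintype.sum_sum_type]
        simp only [M, Matrix.fromBlocks_apply₁₁, Matrix.fromBlocks_apply₂₁, Matrix.zero_apply,
          Finset.sum_const_zero, zero_add]
        rw [← Finset.mul_sum, Equiv.sum_comp f (fun v => b v y), hb2 y]
        field_simp
      · rw [Fintype.sum_sum_type]
        simp only [M, Matrix.fromBlocks_apply₁₂, Matrix.fromBlocks_apply₂₂]
        rw [← Finset.mul_sum, ha1, Finset.sum_ite_eq']
        simp
  obtain ⟨w, hw0, hw1, hwM⟩ := exists_eq_sum_perm_of_mem_doublyStochastic hM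
  obtain ⟨σ, hσ⟩ : ∃ σ, 0 < w σ := by
    by_contra h
    push Not at h
    have h2 : ∑ σ, w σ ≤ 0 := Finset.sum_nonpos (fun σ _ => h σ)
    linarith
  have hpos : ∀ i, 0 < M i (σ i) := by
    intro i
    rw [← hwM, Matrix.sum_apply]
    refine lt_of_lt_of_le hσ ?_
    have h1 : (w σ • Equiv.Perm.permMatrix ℝ σ) i (σ i) = w σ := by
      rw [Matrix.smul_apply]
      simp [Equiv.Perm.permMatrix, PEquiv.toMatrix_apply]
    rw [← h1]
    refine Finset.single_le_sum (f := fun τ => (w τ • Equiv.Perm.permMatrix ℝ τ) i (σ i)) ?_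
      (Finset.mem_univ σ)
    intro τ _
    rw [Matrix.smul_apply, smul_eq_mul]
    refine mul_nonneg (hw0 τ) ?_
    simp only [Equiv.Perm.permMatrix, PEquiv.toMatrix_apply]
    split_ifs <;> norm_num
  have h1 : ∀ x : Fin n, ∃ u : Fin N, σ (Sum.inl x) = Sum.inr u := by
    intro x
    rcases h : σ (Sum.inl x) with y | u
    · have := hpos (Sum.inl x)
      rw [h] at this
      simp [M] at this
    · exact ⟨u, rfl⟩
  choose R hR using h1
  have h2 : ∀ x : Fin n, ∃ y : Fin n, σ (Sum.inr (R x)) = Sum.inl y := by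
    intro x
    rcases h : σ (Sum.inr (R x)) with y | u
    · exact ⟨y, rfl⟩
    · exfalso
      have h3 := hpos (Sum.inr (R x))
      rw [h] at h3
      simp only [M, Matrix.fromBlocks_apply₂₂] at h3
      have h4 : R x = u := by
        by_contra h5
        rw [if_neg h5] at h3
        exact lt_irrefl _ h3
      rw [← h4, ← hR x] at h
      have h5 := σ.injective h
      rw [hR x] at h5
      exact absurd h5 (by simp)
  choose F hF using h2
  have hRi : Function.Injective R := by
    intro x y hxy
    have : σ (Sum.inl x) = σ (Sum.inl y) := by rw [hR, hR, hxy]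
    have := σ.injective this
    exact Sum.inl.inj this
  have hFi : Function.Injective F := by
    intro x y hxy
    have h3 : σ (Sum.inr (R x)) = σ (Sum.inr (R y)) := by rw [hF, hF, hxy]
    have h4 := σ.injective h3
    exact hRi (Sum.inr.inj h4)
  refine ⟨R, Equiv.ofBijective F (Finite.injective_iff_bijective.1 hFi), hRi, ?_⟩
  intro x
  constructor
  · have h3 := hpos (Sum.inl x)
    rw [hR x] at h3
    simp only [M, Matrix.fromBlocks_apply₁₂] at h3
    exact (mul_pos_iff_of_pos_left hq').1 h3
  · have h3 := hpos (Sum.inr (R x))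
    rw [hF x] at h3
    simp only [M, Matrix.fromBlocks_apply₂₁] at h3
    exact (mul_pos_iff_of_pos_left hq').1 h3

end Pool.Agent.Helper46.CM
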