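import Mathlib

/-!
# Welch arrays: differences are distinct modulo (p - 1, p)
-/

set_option autoImplicit false

namespace Pool.Agent.Helper46.CM

/-- Differences of the permutation `f` of `{0, ..., N-1}` are distinct modulo `(N, N + 1)`. -/
def ModCostas {N : ℕ} (f : Equiv.Perm (Fin N)) : Prop :=
  ∀ u v u' v' : Fin N, u ≠ v →
    ((u : ℕ) : ℤ) - (v : ℕ) ≡ ((u' : ℕ) : ℤ) - (v' : ℕ) [ZMOD (N : ℤ)] →
    ((f u : ℕ) : ℤ) - (f v : ℕ) ≡ ((f u' : ℕ) : ℤ) - (f v' : ℕ) [ZMOD ((N + 1 : ℕ) : ℤ)] →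
    u = u' ∧ v = v'

theorem welch_exists {N : ℕ} (hp : Nat.Prime (N + 1)) :
    ∃ f : Equiv.Perm (Fin N), ModCostas f := by
  have : Fact (Nat.Prime (N + 1)) := ⟨hp⟩
  obtain ⟨g, hg⟩ := IsCyclic.exists_generator (α := (ZMod (N + 1))ˣ)
  have hord : orderOf g = N := by
    rw [orderOf_eq_card_of_forall_mem_zpowers hg, Nat.card_eq_fintype_card, ZMod.card_units_eq_totient,
      Nat.totient_prime hp]
    rfl
  have hval : ∀ x : (ZMod (N + 1))ˣ, 1 ≤ (x : ZMod (N + 1)).val := by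
    intro x
    rw [Nat.one_le_iff_ne_zero]
    intro h
    rw [ZMod.val_eq_zero] at h
    exact x.ne_zero h
  have hlt : ∀ x : (ZMod (N + 1))ˣ, (x : ZMod (N + 1)).val - 1 < N := by
    intro x
    have h1 := ZMod.val_lt (x : ZMod (N + 1))
    have h2 := hval x
    omega
  let F : Fin N → Fin N := fun u => ⟨((g ^ (u : ℕ) : (ZMod (N + 1))ˣ) : ZMod (N + 1)).val - 1, hlt _⟩
  have hFv : ∀ u, ((F u : ℕ) : ZMod (N + 1)) = ((g ^ (u : ℕ) : (ZMod (N + 1))ˣ) : ZMod (N + 1)) - 1 := by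
    intro u
    change ((((g ^ (u : ℕ) : (ZMod (N + 1))ˣ) : ZMod (N + 1)).val - 1 : ℕ) : ZMod (N + 1)) = _
    rw [Nat.cast_sub (hval _), ZMod.natCast_zmod_val]
    simp
  have hpow : ∀ a b : ℕ, g ^ a = g ^ b ↔ a ≡ b [MOD N] := by
    intro a b
    rw [pow_eq_pow_iff_modEq, hord]
  have hFi : Function.Injective F := by
    intro u v huv
    have h1 : ((F u : ℕ) : ZMod (N + 1)) = ((F v : ℕ) : ZMod (N + 1)) := by rw [huv]
    rw [hFv, hFv] at h1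
    have h2 : g ^ (u : ℕ) = g ^ (v : ℕ) := by
      apply Units.ext
      linear_combination h1
    rw [hpow] at h2
    exact Fin.ext (Nat.ModEq.eq_of_lt_of_lt h2 u.2 v.2)
  refine ⟨Equiv.ofBijective F (Finite.injective_iff_bijective.1 hFi), ?_⟩
  intro u v u' v' huv h1 h2
  simp only [Equiv.ofBijective_apply] at h2
  have h3 : ((g ^ (u : ℕ) : (ZMod (N + 1))ˣ) : ZMod (N + 1)) - (g ^ (v : ℕ) : (ZMod (N + 1))ˣ)
      = (g ^ (u' : ℕ) : (ZMod (N + 1))ˣ) - (g ^ (v' : ℕ) : (ZMod (N + 1))ˣ) := by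
    have h4 := (ZMod.intCast_eq_intCast_iff _ _ _).2 h2
    push_cast at h4
    rw [hFv, hFv, hFv, hFv] at h4
    linear_combination h4
  have h5 : g ^ ((u : ℕ) + v') = g ^ ((u' : ℕ) + v) := by
    rw [hpow]
    rw [← Int.natCast_modEq_iff]
    push_cast
    have := h1.add_right ((v : ℤ) + v')
    have e1 : ((u : ℕ) : ℤ) - (v : ℕ) + ((v : ℤ) + v') = (u : ℤ) + v' := by ring
    have e2 : ((u' : ℕ) : ℤ) - (v' : ℕ) + ((v : ℤ) + v') = (u' : ℤ) + v := by ring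
    rw [e1, e2] at this
    exact this
  have h6 : ((g ^ (u : ℕ) : (ZMod (N + 1))ˣ) : ZMod (N + 1)) * (g ^ (v' : ℕ) : (ZMod (N + 1))ˣ)
      = (g ^ (u' : ℕ) : (ZMod (N + 1))ˣ) * (g ^ (v : ℕ) : (ZMod (N + 1))ˣ) := by
    rw [← Units.val_mul, ← Units.val_mul, ← pow_add, ← pow_add, h5]
  have h7 : ((g ^ (u : ℕ) : (ZMod (N + 1))ˣ) : ZMod (N + 1)) - (g ^ (v : ℕ) : (ZMod (N + 1))ˣ) ≠ 0 := by
    intro h8
    apply huv
    have h9 : g ^ (u : ℕ) = g ^ (v : ℕ) := by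
      apply Units.ext
      linear_combination h8
    rw [hpow] at h9
    exact Fin.ext (Nat.ModEq.eq_of_lt_of_lt h9 u.2 v.2)
  set A := ((g ^ (u : ℕ) : (ZMod (N + 1))ˣ) : ZMod (N + 1)) with hA
  set B := ((g ^ (v : ℕ) : (ZMod (N + 1))ˣ) : ZMod (N + 1)) with hB
  set A' := ((g ^ (u' : ℕ) : (ZMod (N + 1))ˣ) : ZMod (N + 1)) with hA'
  set B' := ((g ^ (v' : ℕ) : (ZMod (N + 1))ˣ) : ZMod (N + 1)) with hB'
  have h10 : (A - B) * (B - B') = 0 := by
    linear_combination (-1 : ZMod (N + 1)) * h6 + B * h3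
  have h11 : B = B' := by
    rcases mul_eq_zero.1 h10 with h | h
    · exact absurd h h7
    · linear_combination h
  have h12 : A = A' := by
    rw [h11] at h3
    linear_combination h3
  constructor
  · have h9 : g ^ (u : ℕ) = g ^ (u' : ℕ) := Units.ext h12
    rw [hpow] at h9
    exact Fin.ext (Nat.ModEq.eq_of_lt_of_lt h9 u.2 u'.2)
  · have h9 : g ^ (v : ℕ) = g ^ (v' : ℕ) := Units.ext h11
    rw [hpow] at h9
    exact Fin.ext (Nat.ModEq.eq_of_lt_of_lt h9 v.2 v'.2)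

end Pool.Agent.Helper46.CM
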